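import Pool.Agent.P.MP_9c3fb4_an.UProd

open Pool.Agent.Lib.Tracial Pool.Agent.P.MP_9c3fb4_an

universe u u' v w

theorem Pool.Agent.Results.MP_9c3fb4_an.Axiomatizable.result :
    ∀ (U : Ultrafilter ℕ), (∀ n, U ≠ pure n) →
      ∀ (I : Type u') (V : Ultrafilter I) (N : I → II1Factor.{u}) (P M : II1Factor.{w}),
        (∀ i, (N i).tr.Separable) → (∀ i, SuperMcDuff (N i).tr U) →
        Nonempty (Ultraproduct (fun i => (N i).tr) V ≃⋆ₐ[ℂ] P.Alg) →
        M.tr.Separable → ElemEquiv.{w, v} P.tr M.tr → SuperMcDuff M.tr U :=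
  fun U hU _ V N P M hN h ⟨e⟩ hM he => super_of_ultraproduct U hU V N P M hN h e hM he
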