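import Pool.Agent.P.MP_9c3fb4_an.Nonsep

open Pool.Agent.Lib.Tracial

universe u v

theorem Pool.Agent.Results.MP_9c3fb4_an.Both.result :
    ∀ (U : Ultrafilter ℕ), (∀ n, U ≠ pure n) →
      (∀ (N M : II1Factor.{u}), N.tr.Separable → M.tr.Separable → ElemEquiv.{u, v} N.tr M.tr →
        SuperMcDuff N.tr U → SuperMcDuff M.tr U) ∧
      ∃ N M : II1Factor.{0}, N.tr.Separable ∧ ElemEquiv.{0, 0} N.tr M.tr ∧
        SuperMcDuff N.tr U ∧ ¬ SuperMcDuff M.tr U :=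
  fun U hU => ⟨fun N M hN hM he h => super_transfer N.tr M.tr N.isInfFactor hN hM U hU he h,
    Pool.Agent.P.MP_9c3fb4_an.counter U hU⟩
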